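import Mathlib
import Pool.Graph.R_seed8.H63Fed.Miranda

set_option autoImplicit false

namespace Pool.Agent.H72.Spiral

open Real Filter Topology

/-- Coordinates of the two other vertices of the square with diagonal from `a` to `- r e^{iδ}`. -/
noncomputable def XB (a r δ : ℝ) : ℝ := (a - r * cos δ - r * sin δ) / 2
noncomputable def YB (a r δ : ℝ) : ℝ := (a + r * cos δ - r * sin δ) / 2
noncomputable def XD (a r δ : ℝ) : ℝ := (a - r * cos δ + r * sin δ) / 2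
noncomputable def YD (a r δ : ℝ) : ℝ := (a + r * cos δ + r * sin δ) / 2

lemma sqB (a r δ : ℝ) : XB a r δ ^ 2 + YB a r δ ^ 2 = (a ^ 2 + r ^ 2) / 2 - a * r * sin δ := by
  have := Real.sin_sq_add_cos_sq δ
  unfold XB YB
  linear_combination (r ^ 2 / 2) * this

lemma sqD (a r δ : ℝ) : XD a r δ ^ 2 + YD a r δ ^ 2 = (a ^ 2 + r ^ 2) / 2 + a * r * sin δ := by
  have := Real.sin_sq_add_cos_sq δ
  unfold XD YD
  linear_combination (r ^ 2 / 2) * this

lemma symD (a r δ : ℝ) : XD a r δ = XB a r (-δ) ∧ YD a r δ = YB a r (-δ) := by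
  unfold XD YD XB YB
  rw [cos_neg, sin_neg]
  constructor <;> ring

/-- bounds for sine and cosine of a small angle -/
lemma small {δ : ℝ} (h : |δ| ≤ π / 8) : 9 / 10 ≤ cos δ ∧ |sin δ| ≤ 393 / 1000 := by
  have hpi := Real.pi_lt_d4
  have h1 : |δ| ≤ 393 / 1000 := by linarith
  constructor
  · have := Real.one_sub_sq_div_two_le_cos (x := δ)
    have h2 : δ ^ 2 ≤ (393 / 1000) ^ 2 := by
      rw [← sq_abs]
      exact pow_le_pow_left₀ (abs_nonneg _) h1 2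
    nlinarith
  · exact (Real.abs_sin_le_abs).trans h1

lemma YB_pos {a r δ : ℝ} (hr : 0 < r) (hra : r ≤ a) (h : |δ| ≤ π / 8) : 0 < YB a r δ := by
  obtain ⟨h1, h2⟩ := small h
  have h3 := (abs_le.1 h2).2
  unfold YB
  nlinarith

lemma ratio_lt {a r δ : ℝ} (hr : 0 < r) (hra : r ≤ a) (h : |δ| ≤ π / 8) :
    XB a r δ / YB a r δ < 1 := by
  rw [div_lt_one (YB_pos hr hra h)]
  obtain ⟨h1, h2⟩ := small h
  unfold XB YB
  nlinarith

lemma ratio_ge {a r δ : ℝ} (hr : 0 < r) (hra : r ≤ a) (h : |δ| ≤ π / 8) :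
    -(1 / 4) ≤ XB a r δ / YB a r δ := by
  rw [le_div_iff₀ (YB_pos hr hra h)]
  obtain ⟨h1, h2⟩ := small h
  have h3 := (abs_le.1 h2).2
  have h4 := Real.cos_le_one δ
  unfold XB YB
  nlinarith

/-- The angle of the point `B`. -/
noncomputable def bet (a r δ : ℝ) : ℝ := π / 2 - arctan (XB a r δ / YB a r δ)

lemma bet_gt {a r δ : ℝ} (hr : 0 < r) (hra : r ≤ a) (h : |δ| ≤ π / 8) : π / 4 < bet a r δ := by
  have := Real.arctan_strictMono (ratio_lt hr hra h)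
  rw [Real.arctan_one] at this
  unfold bet
  linarith

lemma neg_le_arctan_neg {x : ℝ} (hx : 0 ≤ x) : -x ≤ arctan (-x) := by
  rw [Real.arctan_neg]
  have : arctan x ≤ x := by
    rcases hx.eq_or_lt with h | h
    · rw [← h]; simp
    · have h1 : 0 < arctan x := by rwa [Real.arctan_pos]
      have h2 := Real.lt_tan h1 (Real.arctan_lt_pi_div_two x)
      rw [Real.tan_arctan] at h2
      exact h2.le
  linarith

lemma bet_le {a r δ : ℝ} (hr : 0 < r) (hra : r ≤ a) (h : |δ| ≤ π / 8) :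
    bet a r δ ≤ π / 2 + 1 / 4 := by
  have h1 := Real.arctan_strictMono.monotone (ratio_ge hr hra h)
  have h2 := neg_le_arctan_neg (x := 1 / 4) (by norm_num)
  unfold bet
  linarith

lemma polar {X Y : ℝ} (hY : 0 < Y) :
    √(X ^ 2 + Y ^ 2) * cos (π / 2 - arctan (X / Y)) = X ∧
      √(X ^ 2 + Y ^ 2) * sin (π / 2 - arctan (X / Y)) = Y := by
  have h1 : √(1 + (X / Y) ^ 2) = √(X ^ 2 + Y ^ 2) / Y := by
    have : 1 + (X / Y) ^ 2 = (X ^ 2 + Y ^ 2) / Y ^ 2 := by field_simp; ring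
    rw [this, Real.sqrt_div' _ (by positivity), Real.sqrt_sq hY.le]
  have h2 : 0 < √(X ^ 2 + Y ^ 2) := Real.sqrt_pos.2 (by positivity)
  rw [cos_pi_div_two_sub, sin_pi_div_two_sub, Real.sin_arctan, Real.cos_arctan, h1]
  constructor <;> field_simp

lemma cont_bet {s : Set (Fin 2 → ℝ)} {a r δ : (Fin 2 → ℝ) → ℝ} (ha : ContinuousOn a s)
    (hr : ContinuousOn r s) (hδ : ContinuousOn δ s) (h : ∀ x ∈ s, YB (a x) (r x) (δ x) ≠ 0) :
    ContinuousOn (fun x => bet (a x) (r x) (δ x)) s := by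
  unfold bet
  refine continuousOn_const.sub (Real.continuous_arctan.comp_continuousOn ?_)
  refine ContinuousOn.div ?_ ?_ h
  · unfold XB
    exact ((ha.sub (hr.mul (Real.continuous_cos.comp_continuousOn hδ))).sub
      (hr.mul (Real.continuous_sin.comp_continuousOn hδ))).div_const 2
  · unfold YB
    exact ((ha.add (hr.mul (Real.continuous_cos.comp_continuousOn hδ))).sub
      (hr.mul (Real.continuous_sin.comp_continuousOn hδ))).div_const 2

/-- A coarsely decreasing radius function, each turn shrinks by at most ten per cent. -/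
structure Slow (ρ : ℝ → ℝ) (T : ℝ) : Prop where
  cont : Continuous ρ
  pos : ∀ φ, T ≤ φ → 0 < ρ φ
  mono : ∀ φ, T ≤ φ → ∀ ψ, φ + π / 6 ≤ ψ → ρ ψ ≤ ρ φ
  turn : ∀ φ, T ≤ φ → 9 / 10 * ρ φ ≤ ρ (φ + 2 * π)

section

variable {ρ : ℝ → ℝ} {T : ℝ}

/-- The radius of `C` when `A` is at angle `φ`. -/
noncomputable def rC (ρ : ℝ → ℝ) (k : ℕ) (φ δ : ℝ) : ℝ := ρ (φ + (4 * k + 3) * π + δ)

/-- The lifted angles of `B` and `D`. -/
noncomputable def pB (ρ : ℝ → ℝ) (k : ℕ) (φ δ : ℝ) : ℝ :=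
  φ + 2 * π * k + bet (ρ φ) (rC ρ k φ δ) δ
noncomputable def pD (ρ : ℝ → ℝ) (k : ℕ) (φ δ : ℝ) : ℝ :=
  φ + 2 * π * k + 2 * π - bet (ρ φ) (rC ρ k φ δ) (-δ)

noncomputable def E2 (ρ : ℝ → ℝ) (k : ℕ) (φ δ : ℝ) : ℝ :=
  ρ φ ^ 2 + rC ρ k φ δ ^ 2 - ρ (pB ρ k φ δ) ^ 2 - ρ (pD ρ k φ δ) ^ 2
noncomputable def E1 (ρ : ℝ → ℝ) (k : ℕ) (φ δ : ℝ) : ℝ :=
  2 * (ρ φ * rC ρ k φ δ * sin δ) - (ρ (pD ρ k φ δ) ^ 2 - ρ (pB ρ k φ δ) ^ 2)

lemma rC_pos (S : Slow ρ T) {k : ℕ} {φ δ : ℝ} (hφ : T ≤ φ) (h : |δ| ≤ π / 8) :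
    0 < rC ρ k φ δ := by
  have hpi := Real.pi_pos
  have h1 := (abs_le.1 h).1
  refine S.pos _ ?_
  have : (0:ℝ) ≤ k := Nat.cast_nonneg k
  nlinarith

lemma rC_le (S : Slow ρ T) {k : ℕ} {φ δ : ℝ} (hφ : T ≤ φ) (h : |δ| ≤ π / 8) :
    rC ρ k φ δ ≤ ρ φ := by
  have hpi := Real.pi_pos
  have h1 := (abs_le.1 h).1
  refine S.mono _ hφ _ ?_
  have : (0:ℝ) ≤ k := Nat.cast_nonneg k
  nlinarith

lemma pB_bounds (S : Slow ρ T) {k : ℕ} {φ δ : ℝ} (hφ : T ≤ φ) (h : |δ| ≤ π / 8) :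
    φ + 2 * π * k + π / 4 < pB ρ k φ δ ∧ pB ρ k φ δ ≤ φ + 2 * π * k + π / 2 + 1 / 4 := by
  have h1 := bet_gt (rC_pos S (k := k) hφ h) (rC_le S hφ h) h
  have h2 := bet_le (rC_pos S (k := k) hφ h) (rC_le S hφ h) h
  unfold pB
  constructor <;> linarith

lemma pD_bounds (S : Slow ρ T) {k : ℕ} {φ δ : ℝ} (hφ : T ≤ φ) (h : |δ| ≤ π / 8) :
    φ + 2 * π * k + 3 * π / 2 - 1 / 4 ≤ pD ρ k φ δ ∧
      pD ρ k φ δ < φ + 2 * π * k + 7 * π / 4 := by
  have h' : |-δ| ≤ π / 8 := by rwa [abs_neg]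
  have h1 := bet_gt (rC_pos S (k := k) hφ h) (rC_le S hφ h) h'
  have h2 := bet_le (rC_pos S (k := k) hφ h) (rC_le S hφ h) h'
  unfold pD
  constructor <;> linarith

/-- The square: if both equations hold then the four points are on the spiral. -/
lemma square_of_zero (S : Slow ρ T) {k : ℕ} {φ δ : ℝ} (hφ : T ≤ φ) (h : |δ| ≤ π / 8)
    (e1 : E1 ρ k φ δ = 0) (e2 : E2 ρ k φ δ = 0) :
    ∃ A B C D : ℝ, T ≤ A ∧ T ≤ B ∧ T ≤ C ∧ T ≤ D ∧ ∃ z w : ℂ, w ≠ 0 ∧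
      z = ρ A * Complex.exp (A * Complex.I) ∧
      z + w = ρ B * Complex.exp (B * Complex.I) ∧
      z + w + Complex.I * w = ρ C * Complex.exp (C * Complex.I) ∧
      z + Complex.I * w = ρ D * Complex.exp (D * Complex.I) := by
  have hpi := Real.pi_pos
  have hk : (0:ℝ) ≤ k := Nat.cast_nonneg k
  have hδ := (abs_le.1 h).1
  have h' : |-δ| ≤ π / 8 := by rwa [abs_neg]
  obtain ⟨b1, b2⟩ := pB_bounds S (k := k) hφ h
  obtain ⟨d1, d2⟩ := pD_bounds S (k := k) hφ h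
  have hr := rC_pos S (k := k) hφ h
  have hra := rC_le S (k := k) hφ h
  set a := ρ φ with ha
  set r := rC ρ k φ δ with hrdef
  have hk2 : 0 ≤ 2 * π * k := by positivity
  have hTB : T ≤ pB ρ k φ δ := by linarith
  have hTD : T ≤ pD ρ k φ δ := by
    have := Real.pi_gt_three
    linarith
  have hYB := YB_pos hr hra h
  have hYD := YB_pos hr hra h'
  rw [← (symD a r δ).2] at hYD
  have hB2 : ρ (pB ρ k φ δ) ^ 2 = XB a r δ ^ 2 + YB a r δ ^ 2 := by
    rw [sqB]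
    unfold E1 E2 at *
    linarith
  have hD2 : ρ (pD ρ k φ δ) ^ 2 = XD a r δ ^ 2 + YD a r δ ^ 2 := by
    rw [sqD]
    unfold E1 E2 at *
    linarith
  have hB : ρ (pB ρ k φ δ) = √(XB a r δ ^ 2 + YB a r δ ^ 2) := by
    rw [← hB2, Real.sqrt_sq (S.pos _ hTB).le]
  have hD : ρ (pD ρ k φ δ) = √(XD a r δ ^ 2 + YD a r δ ^ 2) := by
    rw [← hD2, Real.sqrt_sq (S.pos _ hTD).le]
  obtain ⟨cB, sB⟩ := polar (X := XB a r δ) hYB
  obtain ⟨cD, sD⟩ := polar (X := XD a r δ) hYD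
  rw [← hB] at cB sB
  rw [← hD] at cD sD
  have eA : Complex.exp (φ * Complex.I) ≠ 0 := Complex.exp_ne_zero _
  -- B
  have kB : (ρ (pB ρ k φ δ) : ℂ) * Complex.exp ((pB ρ k φ δ : ℝ) * Complex.I) =
      ((XB a r δ : ℂ) + YB a r δ * Complex.I) * Complex.exp (φ * Complex.I) := by
    have e : ((pB ρ k φ δ : ℝ) : ℂ) * Complex.I =
        ((bet a r δ : ℝ) : ℂ) * Complex.I + φ * Complex.I + k * (2 * π * Complex.I) := by
      unfold pB
      push_cast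
      ring
    rw [e, Complex.exp_add, Complex.exp_add, Complex.exp_nat_mul_two_pi_mul_I]
    have e3 : Complex.exp (((bet a r δ : ℝ) : ℂ) * Complex.I) =
        ((cos (bet a r δ) : ℝ) : ℂ) + ((sin (bet a r δ) : ℝ) : ℂ) * Complex.I := by
      rw [Complex.exp_mul_I, Complex.ofReal_cos, Complex.ofReal_sin]
    rw [e3]
    have c1 : ρ (pB ρ k φ δ) * cos (bet a r δ) = XB a r δ := cB
    have c2 : ρ (pB ρ k φ δ) * sin (bet a r δ) = YB a r δ := sB
    rw [← c1, ← c2]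
    push_cast
    ring
  have kD : (ρ (pD ρ k φ δ) : ℂ) * Complex.exp ((pD ρ k φ δ : ℝ) * Complex.I) =
      ((XD a r δ : ℂ) - YD a r δ * Complex.I) * Complex.exp (φ * Complex.I) := by
    have e : ((pD ρ k φ δ : ℝ) : ℂ) * Complex.I =
        ((-bet a r (-δ) : ℝ) : ℂ) * Complex.I + φ * Complex.I +
          ((k + 1 : ℕ) : ℂ) * (2 * π * Complex.I) := by
      unfold pD
      push_cast
      ring
    rw [e, Complex.exp_add, Complex.exp_add, Complex.exp_nat_mul_two_pi_mul_I]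
    have e3 : Complex.exp (((-bet a r (-δ) : ℝ) : ℂ) * Complex.I) =
        ((cos (bet a r (-δ)) : ℝ) : ℂ) - ((sin (bet a r (-δ)) : ℝ) : ℂ) * Complex.I := by
      rw [Complex.exp_mul_I, ← Complex.ofReal_cos, ← Complex.ofReal_sin, cos_neg, sin_neg]
      push_cast
      ring
    rw [e3]
    have hb : bet a r (-δ) = π / 2 - arctan (XD a r δ / YD a r δ) := by
      unfold bet
      rw [(symD a r δ).1, (symD a r δ).2]
    have c1 : ρ (pD ρ k φ δ) * cos (bet a r (-δ)) = XD a r δ := by rw [hb]; exact cD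
    have c2 : ρ (pD ρ k φ δ) * sin (bet a r (-δ)) = YD a r δ := by rw [hb]; exact sD
    rw [← c1, ← c2]
    push_cast
    ring
  have kC : (ρ (φ + (4 * k + 3) * π + δ) : ℂ) *
      Complex.exp (((φ + (4 * k + 3) * π + δ : ℝ) : ℂ) * Complex.I) =
      -((r : ℂ) * ((cos δ : ℝ) + (sin δ : ℝ) * Complex.I)) * Complex.exp (φ * Complex.I) := by
    have e : ((φ + (4 * k + 3) * π + δ : ℝ) : ℂ) * Complex.I =
        (δ : ℂ) * Complex.I + φ * Complex.I + (π * Complex.I) +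
          ((2 * k + 1 : ℕ) : ℂ) * (2 * π * Complex.I) := by
      push_cast
      ring
    rw [e, Complex.exp_add, Complex.exp_add, Complex.exp_add, Complex.exp_nat_mul_two_pi_mul_I,
      Complex.exp_pi_mul_I, Complex.exp_mul_I, ← Complex.ofReal_cos, ← Complex.ofReal_sin]
    rw [hrdef]
    unfold rC
    ring
  have hTC : T ≤ φ + (4 * k + 3) * π + δ := by nlinarith
  refine ⟨φ, pB ρ k φ δ, φ + (4 * k + 3) * π + δ, pD ρ k φ δ, hφ, hTB, hTC, hTD,
    a * Complex.exp (φ * Complex.I),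
    ((XB a r δ : ℂ) + YB a r δ * Complex.I - a) * Complex.exp (φ * Complex.I), ?_, ?_, ?_, ?_, ?_⟩
  · refine mul_ne_zero ?_ eA
    intro h0
    have := congrArg Complex.im h0
    simp at this
    exact hYB.ne' this
  · rfl
  · rw [kB]; ring
  · rw [kC]
    unfold XB YB
    push_cast
    linear_combination (((a:ℂ) * Complex.exp (φ * Complex.I)) / 2 +
      (r : ℂ) * (Complex.cos δ - Complex.sin δ) / 2 * Complex.exp (φ * Complex.I)) * Complex.I_sq
  · rw [kD]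
    unfold XB YB XD YD
    push_cast
    linear_combination (((a:ℂ) * Complex.exp (φ * Complex.I)) / 2 +
      (r : ℂ) * (Complex.cos δ - Complex.sin δ) / 2 * Complex.exp (φ * Complex.I)) * Complex.I_sq

end

end Pool.Agent.H72.Spiral
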