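import Mathlib
import Pool.Agent.H72.Spiral.Core

set_option autoImplicit false

namespace Pool.Agent.H72.Spiral

open Real Filter Topology

variable {ρ : ℝ → ℝ} {T : ℝ}

lemma sin_pi_eight : (1 / 3 : ℝ) ≤ sin (π / 8) := by
  have h1 := Real.pi_gt_d4
  have h2 := Real.pi_lt_d4
  have h3 := Real.sin_gt_sub_cube (x := π / 8) (by positivity)
  have h4 : (π / 8) ^ 3 ≤ (2 / 5) ^ 3 := pow_le_pow_left₀ (by positivity) (by linarith) 3
  linarith

lemma E1_nonneg (S : Slow ρ T) {k : ℕ} {φ : ℝ} (hφ : T ≤ φ) : 0 ≤ E1 ρ k φ (π / 8) := by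
  have hpi := Real.pi_gt_three
  have h : |π / 8| ≤ π / 8 := by rw [abs_of_pos (by positivity)]
  obtain ⟨b1, b2⟩ := pB_bounds S (k := k) hφ h
  obtain ⟨d1, d2⟩ := pD_bounds S (k := k) hφ h
  have hk2 : 0 ≤ 2 * π * k := by positivity
  have hTB : T ≤ pB ρ k φ (π / 8) := by linarith
  have hm := S.mono _ hTB (pD ρ k φ (π / 8)) (by linarith)
  have hTD : T ≤ pD ρ k φ (π / 8) := by linarith
  have hD := S.pos _ hTD
  have hr := rC_pos S (k := k) hφ h
  have ha := S.pos _ hφ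
  have hs := sin_pi_eight
  unfold E1
  have : ρ (pD ρ k φ (π / 8)) ^ 2 ≤ ρ (pB ρ k φ (π / 8)) ^ 2 := pow_le_pow_left₀ hD.le hm 2
  have : 0 ≤ ρ φ * rC ρ k φ (π / 8) * sin (π / 8) := by positivity
  linarith

lemma four_turns (S : Slow ρ T) {φ : ℝ} (hφ : T ≤ φ) :
    (9 / 10) ^ 4 * ρ φ ≤ ρ (φ + 8 * π) := by
  have hpi := Real.pi_pos
  have h1 := S.turn φ hφ
  have h2 := S.turn (φ + 2 * π) (by linarith)
  have h3 := S.turn (φ + 2 * π + 2 * π) (by linarith)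
  have h4 := S.turn (φ + 2 * π + 2 * π + 2 * π) (by linarith)
  have e : φ + 2 * π + 2 * π + 2 * π + 2 * π = φ + 8 * π := by ring
  rw [e] at h4
  linarith

lemma ratio_half (S : Slow ρ T) {k : ℕ}
    (hk : k = 0 ∨ ∀ φ, T ≤ φ → ρ φ ^ 2 ≤ 2 * ρ (φ + 2 * π * (k - 1)) ^ 2) {φ δ : ℝ} (hφ : T ≤ φ)
    (h : |δ| ≤ π / 8) : 3 / 10 * ρ φ ≤ rC ρ k φ δ := by
  have hpi := Real.pi_pos
  have hδ := abs_le.1 h
  have ha := S.pos _ hφ
  have hr := rC_pos S (k := k) hφ h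
  rcases hk with hk | hk
  · subst hk
    have h1 := four_turns S hφ
    have h2 := S.mono (φ + (4 * (0:ℕ) + 3) * π + δ) (by push_cast; nlinarith) (φ + 8 * π)
      (by push_cast; nlinarith)
    unfold rC
    have h5 := mul_le_mul_of_nonneg_right (show (3 / 10 : ℝ) ≤ (9 / 10) ^ 4 by norm_num) ha.le
    exact h5.trans (h1.trans h2)
  · rcases Nat.eq_zero_or_pos k with hk0 | hk0
    · subst hk0
      have h1 := four_turns S hφ
      have h2 := S.mono (φ + (4 * (0:ℕ) + 3) * π + δ) (by push_cast; nlinarith) (φ + 8 * π)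
        (by push_cast; nlinarith)
      unfold rC
      have h5 := mul_le_mul_of_nonneg_right (show (3 / 10 : ℝ) ≤ (9 / 10) ^ 4 by norm_num) ha.le
      exact h5.trans (h1.trans h2)
    · obtain ⟨m, rfl⟩ : ∃ m, k = m + 1 := ⟨k - 1, by omega⟩
      have hm : 0 ≤ 2 * π * (m : ℝ) := by positivity
      have e1 := hk φ hφ
      have e2 := hk (φ + 2 * π * m) (by linarith)
      push_cast at e1 e2
      have h0 : φ + 2 * π * (m + 1 - 1) = φ + 2 * π * m := by ring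
      have h0' : φ + 2 * π * m + 2 * π * (m + 1 - 1) = φ + 4 * π * m := by ring
      rw [h0] at e1
      rw [h0'] at e2
      have hT4 : T ≤ φ + 4 * π * m := by linarith
      have h1 := four_turns S hT4
      have h2 := S.mono (φ + (4 * ((m + 1 : ℕ) : ℝ) + 3) * π + δ) (by push_cast; nlinarith)
        (φ + 4 * π * m + 8 * π) (by push_cast; nlinarith)
      have h3 : (9 / 10) ^ 4 * ρ (φ + 4 * π * m) ≤ rC ρ (m + 1) φ δ := h1.trans h2
      have hp := S.pos _ hT4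
      have h4 : ((9 / 10) ^ 4 * ρ (φ + 4 * π * m)) ^ 2 ≤ rC ρ (m + 1) φ δ ^ 2 :=
        pow_le_pow_left₀ (by positivity) h3 2
      have h5 : (3 / 10 * ρ φ) ^ 2 ≤ rC ρ (m + 1) φ δ ^ 2 := by nlinarith
      exact (pow_le_pow_iff_left₀ (by positivity) hr.le (by norm_num)).1 h5

lemma E1_nonpos (S : Slow ρ T) {k : ℕ}
    (hk : k = 0 ∨ ∀ φ, T ≤ φ → ρ φ ^ 2 ≤ 2 * ρ (φ + 2 * π * (k - 1)) ^ 2) {φ : ℝ} (hφ : T ≤ φ) :
    E1 ρ k φ (-(π / 8)) ≤ 0 := by
  have hpi := Real.pi_gt_three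
  have h : |-(π / 8)| ≤ π / 8 := by rw [abs_neg, abs_of_pos (by positivity)]
  obtain ⟨b1, b2⟩ := pB_bounds S (k := k) hφ h
  obtain ⟨d1, d2⟩ := pD_bounds S (k := k) hφ h
  have hk2 : 0 ≤ 2 * π * k := by positivity
  have hTB : T ≤ pB ρ k φ (-(π / 8)) := by linarith
  have hTD : T ≤ pD ρ k φ (-(π / 8)) := by linarith
  have hr := rC_pos S (k := k) hφ h
  have hr2 := ratio_half S hk hφ h
  have ha := S.pos _ hφ
  have hs := sin_pi_eight
  have h1 := S.turn _ hTB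
  have h2 := S.mono _ hTD (pB ρ k φ (-(π / 8)) + 2 * π) (by linarith)
  have h3 := S.mono _ hφ (pB ρ k φ (-(π / 8))) (by linarith)
  have hB := S.pos _ hTB
  unfold E1
  rw [sin_neg]
  have h4 : (9 / 10 * ρ (pB ρ k φ (-(π / 8)))) ^ 2 ≤ ρ (pD ρ k φ (-(π / 8))) ^ 2 :=
    pow_le_pow_left₀ (by positivity) (h1.trans h2) 2
  have h5 : ρ (pB ρ k φ (-(π / 8))) ^ 2 ≤ ρ φ ^ 2 := pow_le_pow_left₀ hB.le h3 2
  have h6 : 3 / 10 * ρ φ * ρ φ ≤ ρ φ * rC ρ k φ (-(π / 8)) := by nlinarith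
  have h7 : ρ φ * rC ρ k φ (-(π / 8)) * (1 / 3) ≤
      ρ φ * rC ρ k φ (-(π / 8)) * sin (π / 8) :=
    mul_le_mul_of_nonneg_left hs (by positivity)
  nlinarith

/-- Robust positivity of `E2`. -/
def Pk (ρ : ℝ → ℝ) (T : ℝ) (k : ℕ) : Prop := ∃ φ, T ≤ φ ∧ ∀ δ, |δ| ≤ π / 8 → 0 < E2 ρ k φ δ

lemma exists_Pk (S : Slow ρ T) (h0 : Tendsto ρ atTop (𝓝 0)) : ∃ k, Pk ρ T k := by
  have hT := S.pos T le_rfl
  obtain ⟨M, hM⟩ := eventually_atTop.1 (h0.eventually (gt_mem_nhds (half_pos hT)))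
  obtain ⟨k, hk⟩ := exists_nat_ge (M - T)
  have hpi := Real.pi_gt_three
  refine ⟨k, T, le_rfl, fun δ h => ?_⟩
  obtain ⟨b1, b2⟩ := pB_bounds S (k := k) le_rfl h
  obtain ⟨d1, d2⟩ := pD_bounds S (k := k) le_rfl h
  have hk0 : (0 : ℝ) ≤ k := Nat.cast_nonneg k
  have hk2 : (k : ℝ) ≤ 2 * π * k := by nlinarith
  have hB := hM (pB ρ k T δ) (by linarith)
  have hD := hM (pD ρ k T δ) (by linarith)
  have hBp := S.pos (pB ρ k T δ) (by linarith)
  have hDp := S.pos (pD ρ k T δ) (by linarith)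
  unfold E2
  have h1 : ρ (pB ρ k T δ) ^ 2 ≤ (ρ T / 2) ^ 2 := pow_le_pow_left₀ hBp.le hB.le 2
  have h2 : ρ (pD ρ k T δ) ^ 2 ≤ (ρ T / 2) ^ 2 := pow_le_pow_left₀ hDp.le hD.le 2
  nlinarith [sq_nonneg (rC ρ k T δ)]

lemma exists_neg (S : Slow ρ T) (h0 : Tendsto ρ atTop (𝓝 0))
    (h2 : ∀ N : ℕ, ∀ ε : ℝ, 0 < ε → ∃ φ, T ≤ φ ∧ (1 - ε) * ρ φ ≤ ρ (φ + N * (2 * π))) (k : ℕ) :
    ∃ φ, T ≤ φ ∧ ∀ δ, |δ| ≤ π / 8 → E2 ρ k φ δ < 0 := by
  by_contra hcon
  push Not at hcon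
  have hpi := Real.pi_gt_d4
  have hpi2 := Real.pi_lt_d4
  have hk0 : 0 ≤ π * k := by positivity
  obtain ⟨p, hp⟩ : ∃ p, p = 2 * π * k + 2 * π / 3 + 1 / 4 := ⟨_, rfl⟩
  obtain ⟨q, hq⟩ : ∃ q, q = 2 * π * k + 23 * π / 12 := ⟨_, rfl⟩
  obtain ⟨q', hq'⟩ : ∃ q', q' = 4 * π * k + 65 * π / 24 := ⟨_, rfl⟩
  have hl : p < q' - q := by rw [hp, hq, hq']; linarith
  have hp0 : 0 < p := by rw [hp]; linarith
  have hq0 : 0 < q := by rw [hq]; linarith
  have key : ∀ φ, T ≤ φ → 0 ≤ ρ φ ^ 2 + ρ (φ + q') ^ 2 - ρ (φ + p) ^ 2 - ρ (φ + q) ^ 2 := by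
    intro φ hφ
    obtain ⟨δ, h, hE⟩ := hcon φ hφ
    obtain ⟨b1, b2⟩ := pB_bounds S (k := k) hφ h
    obtain ⟨d1, d2⟩ := pD_bounds S (k := k) hφ h
    have hδ := abs_le.1 h
    have e1 := S.mono (pB ρ k φ δ) (by linarith) (φ + p) (by rw [hp]; linarith)
    have e2 := S.mono (pD ρ k φ δ) (by linarith) (φ + q) (by rw [hq]; linarith)
    have e3 := S.mono (φ + q') (by rw [hq']; linarith) (φ + (4 * k + 3) * π + δ)
      (by rw [hq']; linarith)
    have f1 := pow_le_pow_left₀ (S.pos (φ + p) (by linarith)).le e1 2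
    have f2 := pow_le_pow_left₀ (S.pos (φ + q) (by linarith)).le e2 2
    have f3 := pow_le_pow_left₀ (rC_pos S (k := k) hφ h).le e3 2
    unfold E2 at hE
    unfold rC at f3 hE
    linarith
  have hc : Continuous fun t => ρ t ^ 2 := S.cont.pow 2
  have hint : ∀ a b : ℝ, IntervalIntegrable (fun t => ρ t ^ 2) MeasureTheory.volume a b :=
    fun a b => hc.intervalIntegrable a b
  obtain ⟨H, hH⟩ : ∃ H : ℝ → ℝ, H = fun t => ∫ s in (0:ℝ)..t, ρ s ^ 2 := ⟨_, rfl⟩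
  have hI : ∀ a b, ∫ s in a..b, ρ s ^ 2 = H b - H a := by
    intro a b
    rw [hH]
    exact (intervalIntegral.integral_interval_sub_left (hint 0 b) (hint 0 a)).symm
  have hsh : ∀ c a b, ∫ s in a..b, ρ (s + c) ^ 2 = H (b + c) - H (a + c) := by
    intro c a b
    rw [← hI, ← intervalIntegral.integral_comp_add_right (fun t => ρ t ^ 2) c]
  have hci : ∀ c a b : ℝ, IntervalIntegrable (fun t => ρ (t + c) ^ 2) MeasureTheory.volume a b :=
    fun c a b => (hc.comp (continuous_id.add continuous_const)).intervalIntegrable a b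
  have hΨ : ∀ x y, T ≤ x → x ≤ y → (H (y + p) - H y) - (H (y + q') - H (y + q)) ≤
      (H (x + p) - H x) - (H (x + q') - H (x + q)) := by
    intro x y hx hxy
    have h1 : 0 ≤ ∫ s in x..y, (ρ s ^ 2 + ρ (s + q') ^ 2 - ρ (s + p) ^ 2 - ρ (s + q) ^ 2) :=
      intervalIntegral.integral_nonneg hxy (fun u hu => key u (hx.trans hu.1))
    rw [intervalIntegral.integral_sub (((hint x y).add (hci q' x y)).sub (hci p x y)) (hci q x y),
      intervalIntegral.integral_sub ((hint x y).add (hci q' x y)) (hci p x y),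
      intervalIntegral.integral_add (hint x y) (hci q' x y), hI, hsh, hsh, hsh] at h1
    linarith
  have hup : ∀ a b M : ℝ, a ≤ b → (∀ t ∈ Set.Icc a b, ρ t ^ 2 ≤ M) → H b - H a ≤ (b - a) * M := by
    intro a b M hab hM
    rw [← hI]
    have := intervalIntegral.integral_mono_on hab (hint a b)
      (intervalIntegrable_const (c := M)) hM
    simpa using this
  have hlo : ∀ a b M : ℝ, a ≤ b → (∀ t ∈ Set.Icc a b, M ≤ ρ t ^ 2) → (b - a) * M ≤ H b - H a := by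
    intro a b M hab hM
    rw [← hI]
    have := intervalIntegral.integral_mono_on hab
      (intervalIntegrable_const (c := M)) (hint a b) hM
    simpa using this
  have hΨ0 : ∀ x, T ≤ x → 0 ≤ (H (x + p) - H x) - (H (x + q') - H (x + q)) := by
    intro x hx
    have h1 : ∀ η : ℝ, 0 < η → -((q' - q) * η) ≤ (H (x + p) - H x) - (H (x + q') - H (x + q)) := by
      intro η hη
      have h3 : Tendsto (fun t => ρ t ^ 2) atTop (𝓝 0) := by simpa using h0.pow 2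
      obtain ⟨M, hM⟩ := eventually_atTop.1 (h3.eventually (gt_mem_nhds hη))
      have h4 := hΨ x (max x M) hx (le_max_left _ _)
      have h5 := hlo (max x M) (max x M + p) 0 (by linarith) (fun t _ => sq_nonneg _)
      have h6 := hup (max x M + q) (max x M + q') η (by linarith) (fun t ht => (hM t
        (by linarith [ht.1, le_max_right x M])).le)
      have h7 : max x M + q' - (max x M + q) = q' - q := by ring
      rw [h7] at h6
      linarith
    by_contra hneg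
    push Not at hneg
    obtain ⟨w, hw⟩ : ∃ w, w = (H (x + p) - H x) - (H (x + q') - H (x + q)) := ⟨_, rfl⟩
    rw [← hw] at hneg h1
    have hl0 : 0 < q' - q := hp0.trans hl
    have := h1 (-w / (2 * (q' - q))) (div_pos (by linarith) (by linarith))
    have e : (q' - q) * (-w / (2 * (q' - q))) = -w / 2 := by field_simp
    rw [e] at this
    linarith
  obtain ⟨l, hldef⟩ : ∃ l, l = q' - q := ⟨_, rfl⟩
  rw [← hldef] at hl
  have hl0 : 0 < l := hp0.trans hl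
  obtain ⟨ψ, hψ, hψ2⟩ := h2 (2 * k + 2) ((l - p) / (4 * l)) (by
    have : 0 < l - p := by linarith
    positivity)
  have hρψ := S.pos ψ hψ
  have hcst : 0 ≤ 1 - (l - p) / (4 * l) := by
    have : (l - p) / (4 * l) ≤ 1 := by
      rw [div_le_one (by positivity)]; linarith
    linarith
  have hx : T ≤ ψ + π / 6 := by linarith
  have h1 := hΨ0 (ψ + π / 6) hx
  have h3 := hup (ψ + π / 6) (ψ + π / 6 + p) (ρ ψ ^ 2) (by linarith) (fun t ht =>
    pow_le_pow_left₀ (S.pos t (by linarith [ht.1])).le (S.mono ψ hψ t ht.1) 2)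
  have h4 := hlo (ψ + π / 6 + q) (ψ + π / 6 + q') (((1 - (l - p) / (4 * l)) * ρ ψ) ^ 2)
    (by linarith) (fun t ht => by
      refine pow_le_pow_left₀ (by positivity) (hψ2.trans ?_) 2
      refine S.mono t (by linarith [ht.1]) _ ?_
      have := ht.2
      rw [hq'] at this
      push_cast
      linarith)
  have e1 : ψ + π / 6 + p - (ψ + π / 6) = p := by ring
  have e2 : ψ + π / 6 + q' - (ψ + π / 6 + q) = l := by rw [hldef]; ring
  rw [e1] at h3
  rw [e2] at h4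
  have h5 : l * ((1 - (l - p) / (4 * l)) * ρ ψ) ^ 2 ≤ p * ρ ψ ^ 2 := by linarith
  have h6 : l * (1 - (l - p) / (4 * l)) ^ 2 ≤ p := by
    have h7 : (l * (1 - (l - p) / (4 * l)) ^ 2) * ρ ψ ^ 2 ≤ p * ρ ψ ^ 2 := by
      calc _ = l * ((1 - (l - p) / (4 * l)) * ρ ψ) ^ 2 := by ring
        _ ≤ _ := h5
    exact le_of_mul_le_mul_right h7 (by positivity)
  have h8 : 1 - 2 * ((l - p) / (4 * l)) ≤ (1 - (l - p) / (4 * l)) ^ 2 := by
    nlinarith [sq_nonneg ((l - p) / (4 * l))]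
  have h9 : l * (1 - 2 * ((l - p) / (4 * l))) = (l + p) / 2 := by field_simp; ring
  nlinarith [mul_le_mul_of_nonneg_left h8 hl0.le]

lemma exists_zero (S : Slow ρ T) {k : ℕ}
    (hk : k = 0 ∨ ∀ φ, T ≤ φ → ρ φ ^ 2 ≤ 2 * ρ (φ + 2 * π * (k - 1)) ^ 2) {φ0 φ1 : ℝ}
    (h0 : T ≤ φ0) (h1 : T ≤ φ1) (hpos : ∀ δ, |δ| ≤ π / 8 → 0 < E2 ρ k φ0 δ)
    (hneg : ∀ δ, |δ| ≤ π / 8 → E2 ρ k φ1 δ < 0) :
    ∃ φ δ, T ≤ φ ∧ |δ| ≤ π / 8 ∧ E1 ρ k φ δ = 0 ∧ E2 ρ k φ δ = 0 := by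
  have hpi := Real.pi_pos
  obtain ⟨fφ, hfφ⟩ : ∃ f : (Fin 2 → ℝ) → ℝ, f = fun x => φ0 + x 0 * (φ1 - φ0) := ⟨_, rfl⟩
  obtain ⟨fδ, hfδ⟩ : ∃ f : (Fin 2 → ℝ) → ℝ, f = fun x => (2 * x 1 - 1) * (π / 8) := ⟨_, rfl⟩
  have mφ : ∀ x : Fin 2 → ℝ, (∀ i, 0 ≤ x i ∧ x i ≤ 1) → T ≤ fφ x := by
    intro x hx
    obtain ⟨h3, h4⟩ := hx 0
    rw [hfφ]
    nlinarith
  have mδ : ∀ x : Fin 2 → ℝ, (∀ i, 0 ≤ x i ∧ x i ≤ 1) → |fδ x| ≤ π / 8 := by
    intro x hx
    obtain ⟨h3, h4⟩ := hx 1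
    rw [hfδ, abs_le]
    constructor <;> nlinarith
  have cφ : Continuous fφ := by rw [hfφ]; fun_prop
  have cδ : Continuous fδ := by rw [hfδ]; fun_prop
  obtain ⟨K, hK⟩ : ∃ K : Set (Fin 2 → ℝ), K = {x | ∀ i, 0 ≤ x i ∧ x i ≤ 1} := ⟨_, rfl⟩
  have ca : ContinuousOn (fun x => ρ (fφ x)) K := (S.cont.comp cφ).continuousOn
  have cr : ContinuousOn (fun x => rC ρ k (fφ x) (fδ x)) K := by
    unfold rC
    exact (S.cont.comp ((cφ.add continuous_const).add cδ)).continuousOn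
  have cB : ContinuousOn (fun x => pB ρ k (fφ x) (fδ x)) K := by
    unfold pB
    refine (cφ.continuousOn.add continuousOn_const).add (cont_bet ca cr cδ.continuousOn ?_)
    intro x hx
    rw [hK] at hx
    exact (YB_pos (rC_pos S (mφ x hx) (mδ x hx)) (rC_le S (mφ x hx) (mδ x hx)) (mδ x hx)).ne'
  have cD : ContinuousOn (fun x => pD ρ k (fφ x) (fδ x)) K := by
    unfold pD
    refine ((cφ.continuousOn.add continuousOn_const).add continuousOn_const).sub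
      (cont_bet ca cr cδ.neg.continuousOn ?_)
    intro x hx
    rw [hK] at hx
    exact (YB_pos (rC_pos S (mφ x hx) (mδ x hx)) (rC_le S (mφ x hx) (mδ x hx))
      (by rw [abs_neg]; exact mδ x hx)).ne'
  have cE2 : ContinuousOn (fun x => E2 ρ k (fφ x) (fδ x)) K := by
    unfold E2
    exact (((ca.pow 2).add (cr.pow 2)).sub ((S.cont.comp_continuousOn cB).pow 2)).sub
      ((S.cont.comp_continuousOn cD).pow 2)
  have cE1 : ContinuousOn (fun x => E1 ρ k (fφ x) (fδ x)) K := by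
    unfold E1
    exact (continuousOn_const.mul ((ca.mul cr).mul
      (Real.continuous_sin.comp cδ).continuousOn)).sub
      (((S.cont.comp_continuousOn cD).pow 2).sub ((S.cont.comp_continuousOn cB).pow 2))
  obtain ⟨x, hx, hFx⟩ := H63Fed.Miranda.poincare_miranda 2
    (fun x => ![-E2 ρ k (fφ x) (fδ x), E1 ρ k (fφ x) (fδ x)])
    (by
      rw [← hK]
      refine continuousOn_pi.2 fun i => ?_
      fin_cases i
      · exact cE2.neg
      · exact cE1)
    (by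
      intro x hx i hi
      fin_cases i
      · have : fφ x = φ0 := by
          rw [hfφ]
          simp only at hi ⊢
          have : x 0 = 0 := hi
          rw [this]; ring
        have h3 := hpos _ (mδ x hx)
        simp only [Fin.zero_eta, Matrix.cons_val_zero, this]
        linarith
      · have : fδ x = -(π / 8) := by
          rw [hfδ]
          have : x 1 = 0 := hi
          simp only [this]; ring
        simp only [Fin.mk_one, Matrix.cons_val_one, Matrix.cons_val_fin_one, this]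
        exact E1_nonpos S hk (mφ x hx))
    (by
      intro x hx i hi
      fin_cases i
      · have : fφ x = φ1 := by
          rw [hfφ]
          have : x 0 = 1 := hi
          simp only [this]; ring
        have h3 := hneg _ (mδ x hx)
        simp only [Fin.zero_eta, Matrix.cons_val_zero, this]
        linarith
      · have : fδ x = π / 8 := by
          rw [hfδ]
          have : x 1 = 1 := hi
          simp only [this]; ring
        simp only [Fin.mk_one, Matrix.cons_val_one, Matrix.cons_val_fin_one, this]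
        exact E1_nonneg S (mφ x hx))
  refine ⟨fφ x, fδ x, mφ x hx, mδ x hx, ?_, ?_⟩
  · have := congrFun hFx 1
    simpa using this
  · have := congrFun hFx 0
    simpa using this

/-- The main theorem for spirals converging to the centre. -/
theorem main (S : Slow ρ T) (h0 : Tendsto ρ atTop (𝓝 0))
    (h2 : ∀ N : ℕ, ∀ ε : ℝ, 0 < ε → ∃ φ, T ≤ φ ∧ (1 - ε) * ρ φ ≤ ρ (φ + N * (2 * π))) :
    ∃ A B C D : ℝ, T ≤ A ∧ T ≤ B ∧ T ≤ C ∧ T ≤ D ∧ ∃ z w : ℂ, w ≠ 0 ∧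
      z = ρ A * Complex.exp (A * Complex.I) ∧
      z + w = ρ B * Complex.exp (B * Complex.I) ∧
      z + w + Complex.I * w = ρ C * Complex.exp (C * Complex.I) ∧
      z + Complex.I * w = ρ D * Complex.exp (D * Complex.I) := by
  classical
  have hex := exists_Pk S h0
  obtain ⟨k, hk⟩ : ∃ k, k = Nat.find hex := ⟨_, rfl⟩
  have hPk : Pk ρ T k := by rw [hk]; exact Nat.find_spec hex
  have hmin : k = 0 ∨ ∀ φ, T ≤ φ → ρ φ ^ 2 ≤ 2 * ρ (φ + 2 * π * (k - 1)) ^ 2 := by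
    rcases Nat.eq_zero_or_pos k with h | h
    · exact Or.inl h
    · right
      obtain ⟨m, hm⟩ : ∃ m, k = m + 1 := ⟨k - 1, by omega⟩
      have hnot : ¬ Pk ρ T m := Nat.find_min hex (by omega)
      intro φ hφ
      have hpi := Real.pi_gt_three
      have : ∃ δ, |δ| ≤ π / 8 ∧ E2 ρ m φ δ ≤ 0 := by
        by_contra hc
        push Not at hc
        exact hnot ⟨φ, hφ, hc⟩
      obtain ⟨δ, h1, h3⟩ := this
      obtain ⟨b1, b2⟩ := pB_bounds S (k := m) hφ h1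
      obtain ⟨d1, d2⟩ := pD_bounds S (k := m) hφ h1
      have hm0 : 0 ≤ 2 * π * (m : ℝ) := by positivity
      have hT : T ≤ φ + 2 * π * m := by linarith
      have e1 := S.mono _ hT (pB ρ m φ δ) (by linarith)
      have e2 := S.mono _ hT (pD ρ m φ δ) (by linarith)
      have f1 := pow_le_pow_left₀ (S.pos (pB ρ m φ δ) (by linarith)).le e1 2
      have f2 := pow_le_pow_left₀ (S.pos (pD ρ m φ δ) (by linarith)).le e2 2
      have e : φ + 2 * π * ((k : ℝ) - 1) = φ + 2 * π * m := by rw [hm]; push_cast; ring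
      rw [e]
      unfold E2 at h3
      nlinarith [sq_nonneg (rC ρ m φ δ)]
  obtain ⟨φ0, hφ0, hpos⟩ := hPk
  obtain ⟨φ1, hφ1, hneg⟩ := exists_neg S h0 h2 k
  obtain ⟨φ, δ, hφ, hδ, e1, e2⟩ := exists_zero S hmin hφ0 hφ1 hpos hneg
  exact square_of_zero S hφ hδ e1 e2

end Pool.Agent.H72.Spiral
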